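import Mathlib

/-! Averages of quadratic functions on finite groups, and a compact countable set containing them. -/

set_option autoImplicit false

namespace Pool.Agent.X329.Inv

open Finset

/-- averages of `k` roots of unity of order dividing `e`, of absolute value at most `1 / √k` -/
def Ek (e k : ℕ) : Set ℂ :=
  {z | ‖z‖ ^ 2 * k ≤ 1 ∧ ∃ w : Fin k → ℂ, (∀ i, w i ^ e = 1) ∧ z * k = ∑ i, w i}

def E (e : ℕ) : Set ℂ := {0} ∪ ⋃ k : ℕ, Ek e (k + 1)

theorem finite_roots (e : ℕ) (he : 0 < e) : {z : ℂ | z ^ e = 1}.Finite := by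
  have h : {z : ℂ | z ^ e = 1} ⊆ ((Polynomial.nthRoots e (1 : ℂ)).toFinset : Set ℂ) := by
    intro z hz
    simp only [Finset.mem_coe, Multiset.mem_toFinset]
    rw [Polynomial.mem_nthRoots he]
    exact hz
  exact (Finset.finite_toSet _).subset h

theorem finite_Ek (e k : ℕ) (he : 0 < e) (hk : 0 < k) : (Ek e k).Finite := by
  have h1 : (Set.pi Set.univ (fun _ : Fin k => {z : ℂ | z ^ e = 1})).Finite :=
    Set.Finite.pi fun _ => finite_roots e he
  refine (h1.image (fun w : Fin k → ℂ => (∑ i, w i) / (k : ℂ))).subset ?_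
  rintro z ⟨-, w, hw, hz⟩
  refine ⟨w, fun i _ => hw i, ?_⟩
  have hk' : (k : ℂ) ≠ 0 := by exact_mod_cast hk.ne'
  show (∑ i, w i) / (k : ℂ) = z
  rw [← hz, mul_div_cancel_right₀ _ hk']

theorem countable_E (e : ℕ) (he : 0 < e) : (E e).Countable :=
  (Set.countable_singleton _).union
    (Set.countable_iUnion fun k => (finite_Ek e (k + 1) he k.succ_pos).countable)

theorem zero_mem_E (e : ℕ) : (0 : ℂ) ∈ E e := Or.inl rfl

theorem norm_le_of_mem_Ek {e k : ℕ} {z : ℂ} (hz : z ∈ Ek e k) : ‖z‖ ^ 2 * k ≤ 1 := hz.1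

theorem isCompact_E (e : ℕ) (he : 0 < e) : IsCompact (E e) := by
  rw [Metric.isCompact_iff_isClosed_bounded]
  constructor
  · rw [← isOpen_compl_iff, isOpen_iff_mem_nhds]
    intro z hz
    have hz0 : z ≠ 0 := fun h => hz (by rw [h]; exact zero_mem_E e)
    have hpos : 0 < ‖z‖ := norm_pos_iff.2 hz0
    obtain ⟨K, hK⟩ := exists_nat_gt (4 / ‖z‖ ^ 2)
    set F : Set ℂ := {0} ∪ ⋃ k ∈ Finset.range K, Ek e (k + 1) with hF
    have hFfin : F.Finite := (Set.finite_singleton _).union
      (Set.Finite.biUnion (Finset.finite_toSet _) fun k _ => finite_Ek e (k + 1) he k.succ_pos)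
    have hsub : E e ⊆ F ∪ Metric.closedBall 0 (‖z‖ / 2) := by
      rintro x (hx | hx)
      · exact Or.inl (Or.inl hx)
      · obtain ⟨k, hk⟩ := Set.mem_iUnion.1 hx
        by_cases hkK : k < K
        · left; right
          exact Set.mem_biUnion (by simpa using hkK) hk
        · right
          rw [mem_closedBall_zero_iff]
          have h1 := norm_le_of_mem_Ek hk
          push_cast at h1
          have h2 : (K : ℝ) ≤ k := by exact_mod_cast not_lt.1 hkK
          have h3 : 4 / ‖z‖ ^ 2 < k + 1 := by linarith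
          have h4 : 4 < (k + 1) * ‖z‖ ^ 2 := by
            rwa [div_lt_iff₀ (by positivity)] at h3
          by_contra hcon
          push Not at hcon
          have h5 : (‖z‖ / 2) ^ 2 ≤ ‖x‖ ^ 2 := pow_le_pow_left₀ (by positivity) hcon.le 2
          have h6 : (‖z‖ / 2) ^ 2 * ((k : ℝ) + 1) ≤ ‖x‖ ^ 2 * (k + 1) :=
            mul_le_mul_of_nonneg_right h5 (by positivity)
          nlinarith
    have hcl : IsClosed (F ∪ Metric.closedBall (0 : ℂ) (‖z‖ / 2)) :=
      hFfin.isClosed.union Metric.isClosed_closedBall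
    have hzn : z ∉ F ∪ Metric.closedBall (0 : ℂ) (‖z‖ / 2) := by
      rintro (h | h)
      · rcases h with h | h
        · exact hz0 h
        · obtain ⟨k, -, hk⟩ := Set.mem_iUnion₂.1 h
          exact hz (Or.inr (Set.mem_iUnion.2 ⟨k, hk⟩))
      · rw [mem_closedBall_zero_iff] at h
        linarith
    exact Filter.mem_of_superset (hcl.isOpen_compl.mem_nhds hzn)
      (Set.compl_subset_compl.2 hsub)
  · rw [isBounded_iff_forall_norm_le]
    refine ⟨1, ?_⟩
    rintro x (hx | hx)
    · rw [Set.mem_singleton_iff.1 hx, norm_zero]; exact zero_le_one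
    · obtain ⟨k, hk⟩ := Set.mem_iUnion.1 hx
      have h1 := norm_le_of_mem_Ek hk
      push_cast at h1
      have h2 : ‖x‖ ^ 2 ≤ 1 := by
        have : 0 ≤ ‖x‖ ^ 2 * (k : ℝ) := by positivity
        nlinarith
      nlinarith [norm_nonneg x]

/-- A quadratic function on a finite group with values in the `e`-th roots of unity has its average
in `E e`. -/
theorem quad {L : Type*} [Group L] [Finite L] (q : L → ℂ) (β : L → L → ℂ) (e : ℕ) (he : 0 < e)
    (hq : ∀ l, q l ^ e = 1) (hβ1 : ∀ a b c, β (a * b) c = β a c * β b c)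
    (hβ2 : ∀ a b c, β a (b * c) = β a b * β a c) (hβ0 : ∀ a b, β a b ≠ 0)
    (hmul : ∀ a b, q (a * b) = q a * q b * β a b) :
    (∑ᶠ l, q l) / Nat.card L ∈ E e := by
  classical
  have := Fintype.ofFinite L
  rw [finsum_eq_sum_of_fintype]
  have hβ_one : ∀ a, β a 1 = 1 := by
    intro a
    have h := hβ2 a 1 1
    rw [mul_one] at h
    exact (mul_eq_left₀ (hβ0 a 1)).1 h.symm
  let R : Subgroup L :=
    { carrier := {r | ∀ l, β l r = 1}
      mul_mem' := by
        intro a b ha hb l
        rw [hβ2, ha l, hb l, mul_one]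
      one_mem' := hβ_one
      inv_mem' := by
        intro a ha l
        have h := hβ2 l a a⁻¹
        rw [mul_inv_cancel, hβ_one, ha l, one_mul] at h
        exact h.symm }
  have hR : ∀ r, r ∈ R ↔ ∀ l, β l r = 1 := fun r => Iff.rfl
  have hnorm : ∀ l, ‖q l‖ = 1 := fun l => Complex.norm_eq_one_of_pow_eq_one (hq l) he.ne'
  have hconj : ∀ l, q l * (starRingEnd ℂ) (q l) = 1 := by
    intro l
    rw [Complex.mul_conj, Complex.normSq_eq_norm_sq, hnorm l]
    simp
  have hβsum : ∀ h, ∑ l, β l h = if h ∈ R then (Fintype.card L : ℂ) else 0 := by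
    intro h
    split_ifs with hh
    · rw [Finset.sum_congr rfl fun l _ => hh l]
      simp
    · rw [hR] at hh
      push Not at hh
      obtain ⟨l0, hl0⟩ := hh
      have h1 : ∑ l, β l h = β l0 h * ∑ l, β l h := by
        rw [Finset.mul_sum]
        rw [← Equiv.sum_comp (Equiv.mulLeft l0) (fun l => β l h)]
        exact Finset.sum_congr rfl fun l _ => hβ1 l0 l h
      by_contra hne
      exact hl0 ((mul_eq_right₀ hne).1 h1.symm)
  set S := ∑ l, q l with hS
  have hSS : S * (starRingEnd ℂ) S = ∑ h, q h * (if h ∈ R then (Fintype.card L : ℂ) else 0) := by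
    rw [hS, map_sum, Finset.sum_mul_sum, Finset.sum_comm]
    have h1 : ∀ l' : L, ∑ l, q l * (starRingEnd ℂ) (q l') = ∑ h, q h * β l' h := by
      intro l'
      rw [← Equiv.sum_comp (Equiv.mulLeft l') (fun l => q l * (starRingEnd ℂ) (q l'))]
      refine Finset.sum_congr rfl fun h _ => ?_
      show q (l' * h) * (starRingEnd ℂ) (q l') = q h * β l' h
      rw [hmul]
      calc q l' * q h * β l' h * (starRingEnd ℂ) (q l')
          = (q l' * (starRingEnd ℂ) (q l')) * (q h * β l' h) := by ring
        _ = q h * β l' h := by rw [hconj, one_mul]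
    rw [Finset.sum_congr rfl fun l' _ => h1 l', Finset.sum_comm]
    refine Finset.sum_congr rfl fun h _ => ?_
    rw [← Finset.mul_sum, hβsum]
  have hcardR : (Finset.univ.filter fun h => h ∈ R).card = Nat.card R := by
    rw [Nat.card_eq_fintype_card, Fintype.card_subtype]
  have hSn : ‖S‖ ^ 2 ≤ Nat.card R * Nat.card L := by
    have h1 : ‖S * (starRingEnd ℂ) S‖ = ‖S‖ ^ 2 := by
      rw [norm_mul, RCLike.norm_conj, sq]
    rw [← h1, hSS]
    refine (norm_sum_le _ _).trans ?_
    have h2 : ∀ h : L, ‖q h * (if h ∈ R then (Fintype.card L : ℂ) else 0)‖ =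
        if h ∈ R then (Fintype.card L : ℝ) else 0 := by
      intro h
      rw [norm_mul, hnorm, one_mul]
      split_ifs <;> simp
    rw [Finset.sum_congr rfl fun h _ => h2 h, ← Finset.sum_filter, Finset.sum_const, hcardR,
      nsmul_eq_mul, Nat.card_eq_fintype_card (α := L)]
  by_cases hex : ∃ r ∈ R, q r ≠ 1
  · obtain ⟨r, hr, hr1⟩ := hex
    have h1 : S = S * q r := by
      conv_lhs => rw [hS, ← Equiv.sum_comp (Equiv.mulRight r) q]
      rw [hS, Finset.sum_mul]
      refine Finset.sum_congr rfl fun l _ => ?_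
      show q (l * r) = q l * q r
      rw [hmul, hr l, mul_one]
    have h2 : S = 0 := by
      by_contra hne
      exact hr1 ((mul_eq_left₀ hne).1 h1.symm)
    rw [h2, zero_div]
    exact zero_mem_E e
  · push Not at hex
    have hinv : ∀ l, ∀ r ∈ R, q (l * r) = q l := by
      intro l r hr
      rw [hmul, hr l, hex r hr, mul_one, mul_one]
    let Q : L ⧸ R → ℂ := fun c => q c.out
    have hQ : ∀ l : L, q l = Q (l : L ⧸ R) := by
      intro l
      obtain ⟨r, hr⟩ := QuotientGroup.mk_out_eq_mul R l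
      show q l = q ((l : L ⧸ R).out)
      rw [hr, hinv l r r.2]
    have hfib : ∀ c : L ⧸ R, (Finset.univ.filter fun l : L => (l : L ⧸ R) = c).card =
        Nat.card R := by
      intro c
      have h1 := QuotientGroup.card_preimage_mk R {c}
      rw [Nat.card_eq_fintype_card (α := ({c} : Set (L ⧸ R))), Fintype.card_unique, mul_one] at h1
      rw [← h1, Nat.card_eq_fintype_card, Fintype.card_subtype]
      congr 1
      ext x
      simp
    have hSQ : S = Nat.card R * ∑ c, Q c := by
      rw [hS, ← Finset.sum_fiberwise (s := Finset.univ) (g := fun l : L => (l : L ⧸ R)),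
        Finset.mul_sum]
      refine Finset.sum_congr rfl fun c _ => ?_
      rw [Finset.sum_congr rfl (g := fun _ => Q c) (fun l hl => by
        rw [hQ l, (Finset.mem_filter.1 hl).2])]
      rw [Finset.sum_const, hfib, nsmul_eq_mul]
    have hk0 : 0 < Nat.card (L ⧸ R) := Nat.card_pos
    have hR0 : 0 < Nat.card R := Nat.card_pos
    have hcard : Nat.card L = Nat.card (L ⧸ R) * Nat.card R :=
      Subgroup.card_eq_card_quotient_mul_card_subgroup R
    right
    rw [Set.mem_iUnion]
    refine ⟨Nat.card (L ⧸ R) - 1, ?_⟩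
    have hk1 : Nat.card (L ⧸ R) - 1 + 1 = Nat.card (L ⧸ R) := by omega
    rw [hk1]
    have hkC : (Nat.card (L ⧸ R) : ℂ) ≠ 0 := by exact_mod_cast hk0.ne'
    have hRC : (Nat.card R : ℂ) ≠ 0 := by exact_mod_cast hR0.ne'
    have hkR : (0 : ℝ) < Nat.card (L ⧸ R) := by exact_mod_cast hk0
    have hRR : (0 : ℝ) < Nat.card R := by exact_mod_cast hR0
    refine ⟨?_, fun i => Q ((Finite.equivFin (L ⧸ R)).symm i), fun i => hq _, ?_⟩
    · rw [norm_div, div_pow, hcard]
      have h1 : ‖((Nat.card (L ⧸ R) * Nat.card R : ℕ) : ℂ)‖ =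
          Nat.card (L ⧸ R) * Nat.card R := by
        rw [Complex.norm_natCast]; push_cast; ring
      rw [h1, div_mul_eq_mul_div, div_le_one (by positivity)]
      have h2 := hSn
      rw [hcard] at h2
      push_cast at h2
      nlinarith
    · rw [hcard, hSQ]
      have h3 : ∑ i, Q ((Finite.equivFin (L ⧸ R)).symm i) = ∑ c, Q c :=
        Equiv.sum_comp (Finite.equivFin (L ⧸ R)).symm Q
      rw [h3]
      push_cast
      field_simp

end Pool.Agent.X329.Inv
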