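import Mathlib
import Pool.Agent.X329.Inv.Quad

/-! The proportion of the elements inverted by an endomorphism of a group of class two. -/

set_option autoImplicit false

namespace Pool.Agent.X329.Inv

open Finset

theorem Ek_mono {e e' : ℕ} (h : e ∣ e') (k : ℕ) : Ek e k ⊆ Ek e' k := by
  rintro z ⟨h1, w, hw, hz⟩
  obtain ⟨d, rfl⟩ := h
  exact ⟨h1, w, fun i => by rw [pow_mul, hw i, one_pow], hz⟩

theorem E_mono {e e' : ℕ} (h : e ∣ e') : E e ⊆ E e' :=
  Set.union_subset_union_right _ (Set.iUnion_mono fun _ => Ek_mono h _)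

theorem addChar_pow {A : Type*} [CommGroup A] [Finite A] (ψ : AddChar (Additive A) ℂ) (a : A)
    (e : ℕ) (he : Nat.card A ∣ e) : ψ (Additive.ofMul a) ^ e = 1 := by
  rw [← AddChar.map_nsmul_eq_pow, ← ofMul_pow]
  have h : a ^ e = 1 := by
    obtain ⟨d, rfl⟩ := he
    rw [pow_mul, pow_card_eq_one', one_pow]
  rw [h]
  exact ψ.map_zero_eq_one

theorem class2 {M A : Type*} [Group M] [Finite M] [CommGroup A] [Finite A] (κ : A →* M)
    (hκ : Function.Injective κ) (hcen : ∀ (a : A) (m : M), κ a * m = m * κ a)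
    (hcomm : ∀ x y : M, ∃ a, κ a = x⁻¹ * y⁻¹ * x * y) (α : M →* M) (e : ℕ) (he0 : 0 < e)
    (he : Nat.card A ∣ e) :
    ∃ (k : ℕ) (z : AddChar (Additive A) ℂ → ℂ), 1 ≤ k ∧ (∀ ψ, z ψ ∈ E e) ∧
      (Nat.card {m : M // α m * m = 1} : ℂ) / Nat.card M =
        ∑ ψ, ((1 : ℂ) / Nat.card A) * ((1 : ℂ) / k) * z ψ := by
  classical
  have := Fintype.ofFinite M
  have := Fintype.ofFinite A
  choose C hC using hcomm
  let L : Subgroup M :=
    { carrier := {m | ∃ a, κ a = α m * m}
      mul_mem' := by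
        rintro x y ⟨a, ha⟩ ⟨b, hb⟩
        refine ⟨a * b * C x y, ?_⟩
        have h1 : α y = κ b * y⁻¹ := by rw [hb, mul_assoc, mul_inv_cancel, mul_one]
        have h2 := hcen b
        calc κ (a * b * C x y) = κ a * κ b * κ (C x y) := by rw [map_mul, map_mul]
          _ = (α x * x) * (κ b * (x⁻¹ * y⁻¹ * x * y)) := by rw [ha, hC, mul_assoc]
          _ = (α x * x) * ((x⁻¹ * y⁻¹ * x * y) * κ b) := by rw [h2]
          _ = α x * (y⁻¹ * x * y * κ b) := by group
          _ = α x * (κ b * (y⁻¹ * x * y)) := by rw [h2]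
          _ = α x * (κ b * y⁻¹) * (x * y) := by group
          _ = α (x * y) * (x * y) := by rw [← h1, map_mul]
      one_mem' := ⟨1, by simp⟩
      inv_mem' := by
        rintro x ⟨a, ha⟩
        refine ⟨a⁻¹, ?_⟩
        have h1 : κ a = x * α x := by
          have h2 := hcen a x⁻¹
          have h3 : α x = x⁻¹ * κ a := by
            rw [← h2, ha]; group
          rw [h3]; group
        rw [map_inv, map_inv, h1, mul_inv_rev] }
  have hP : ∀ l : L, ∃ a, κ a = α l * l := fun l => l.2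
  choose P hP using hP
  have hPmul : ∀ x y : L, P (x * y) = P x * P y * C x y := by
    intro x y
    apply hκ
    have h1 : α (y : M) = κ (P y) * (y : M)⁻¹ := by rw [hP, mul_assoc, mul_inv_cancel, mul_one]
    have h2 := hcen (P y)
    symm
    calc κ (P x * P y * C x y) = κ (P x) * κ (P y) * κ (C x y) := by rw [map_mul, map_mul]
      _ = (α x * x) * (κ (P y) * ((x : M)⁻¹ * (y : M)⁻¹ * x * y)) := by
          rw [hP x, hC, mul_assoc]
      _ = (α x * x) * (((x : M)⁻¹ * (y : M)⁻¹ * x * y) * κ (P y)) := by rw [h2]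
      _ = α x * ((y : M)⁻¹ * x * y * κ (P y)) := by group
      _ = α x * (κ (P y) * ((y : M)⁻¹ * x * y)) := by rw [h2]
      _ = α x * (κ (P y) * (y : M)⁻¹) * (x * y) := by group
      _ = α ((x : M) * y) * (x * y) := by rw [← h1, map_mul]
      _ = κ (P (x * y)) := by rw [hP]; rfl
  have hC1 : ∀ x x' y : M, C (x * x') y = C x y * C x' y := by
    intro x x' y
    apply hκ
    have h2 := hcen (C x y)
    symm
    calc κ (C x y * C x' y) = κ (C x y) * (x'⁻¹ * y⁻¹ * x' * y) := by rw [map_mul, hC x' y]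
      _ = κ (C x y) * x'⁻¹ * (y⁻¹ * x' * y) := by group
      _ = x'⁻¹ * κ (C x y) * (y⁻¹ * x' * y) := by rw [h2]
      _ = x'⁻¹ * (x⁻¹ * y⁻¹ * x * y) * (y⁻¹ * x' * y) := by rw [hC]
      _ = (x * x')⁻¹ * y⁻¹ * (x * x') * y := by group
      _ = κ (C (x * x') y) := by rw [hC]
  have hC2 : ∀ x y y' : M, C x (y * y') = C x y * C x y' := by
    intro x y y'
    apply hκ
    have h2 := hcen (C x y)
    have h3 : y⁻¹ * x * y = x * κ (C x y) := by rw [hC]; group
    symm
    calc κ (C x y * C x y') = κ (C x y) * (x⁻¹ * y'⁻¹ * x * y') := by rw [map_mul, hC x y']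
      _ = (x⁻¹ * y'⁻¹ * x * y') * κ (C x y) := by rw [h2]
      _ = x⁻¹ * y'⁻¹ * x * (y' * κ (C x y)) := by group
      _ = x⁻¹ * y'⁻¹ * x * (κ (C x y) * y') := by rw [h2]
      _ = x⁻¹ * y'⁻¹ * (x * κ (C x y)) * y' := by group
      _ = x⁻¹ * y'⁻¹ * (y⁻¹ * x * y) * y' := by rw [h3]
      _ = x⁻¹ * (y * y')⁻¹ * x * (y * y') := by group
      _ = κ (C x (y * y')) := by rw [hC]
  have hψ0 : ∀ (ψ : AddChar (Additive A) ℂ) (a : A), ψ (Additive.ofMul a) ≠ 0 := by
    intro ψ a h0
    have h := addChar_pow ψ a (Nat.card A) dvd_rfl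
    rw [h0, zero_pow Nat.card_pos.ne'] at h
    exact zero_ne_one h
  have hψm : ∀ (ψ : AddChar (Additive A) ℂ) (a b : A),
      ψ (Additive.ofMul (a * b)) = ψ (Additive.ofMul a) * ψ (Additive.ofMul b) := by
    intro ψ a b
    rw [ofMul_mul, AddChar.map_add_eq_mul]
  refine ⟨L.index, fun ψ => (∑ᶠ l : L, ψ (Additive.ofMul (P l))) / Nat.card L, ?_, ?_, ?_⟩
  · exact Nat.one_le_iff_ne_zero.2 Subgroup.FiniteIndex.index_ne_zero
  · intro ψ
    refine quad (fun l : L => ψ (Additive.ofMul (P l)))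
      (fun x y : L => ψ (Additive.ofMul (C x y))) e he0 (fun l => addChar_pow ψ _ e he)
      ?_ ?_ (fun a b => hψ0 ψ _) ?_
    · intro a b c
      show ψ (Additive.ofMul (C ((a * b : L) : M) c)) = _
      rw [Subgroup.coe_mul, hC1, hψm]
    · intro a b c
      show ψ (Additive.ofMul (C a ((b * c : L) : M))) = _
      rw [Subgroup.coe_mul, hC2, hψm]
    · intro a b
      show ψ (Additive.ofMul (P (a * b))) = _
      rw [hPmul, hψm, hψm]
  · have hM0 : (Nat.card M : ℂ) ≠ 0 := by exact_mod_cast Nat.card_pos.ne'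
    have hL0 : (Nat.card L : ℂ) ≠ 0 := by exact_mod_cast Nat.card_pos.ne'
    have hA0 : (Nat.card A : ℂ) ≠ 0 := by exact_mod_cast Nat.card_pos.ne'
    have hi0 : (L.index : ℂ) ≠ 0 := by exact_mod_cast Subgroup.FiniteIndex.index_ne_zero
    have hind : (Nat.card M : ℂ) = L.index * Nat.card L := by
      exact_mod_cast L.index_mul_card.symm
    have hcount : Nat.card {m : M // α m * m = 1} = Nat.card {l : L // P l = 1} := by
      refine Nat.card_congr
        { toFun := fun m => ⟨⟨m.1, ⟨1, by rw [map_one, m.2]⟩⟩, ?_⟩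
          invFun := fun l => ⟨l.1, ?_⟩
          left_inv := fun m => rfl
          right_inv := fun l => rfl }
      · apply hκ
        rw [hP]
        exact m.2.trans (map_one κ).symm
      · have h5 := hP l.1
        rw [l.2, map_one] at h5
        exact h5.symm
    have hdouble : (Nat.card A : ℂ) * Nat.card {l : L // P l = 1} =
        ∑ ψ : AddChar (Additive A) ℂ, ∑ l : L, ψ (Additive.ofMul (P l)) := by
      rw [Finset.sum_comm]
      have h1 : ∀ l : L, ∑ ψ : AddChar (Additive A) ℂ, ψ (Additive.ofMul (P l)) =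
          if P l = 1 then (Nat.card A : ℂ) else 0 := by
        intro l
        rw [AddChar.sum_apply_eq_ite]
        have h2 : Additive.ofMul (P l) = 0 ↔ P l = 1 := ofMul_eq_zero
        simp only [h2]
        have h3 : Fintype.card (Additive A) = Nat.card A := by
          rw [← Nat.card_eq_fintype_card]; rfl
        rw [h3]
      rw [Finset.sum_congr rfl fun l _ => h1 l, ← Finset.sum_filter, Finset.sum_const,
        nsmul_eq_mul, Nat.card_eq_fintype_card (α := {l : L // P l = 1}), Fintype.card_subtype]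
      ring
    rw [hcount, hind]
    have h4 : (Nat.card {l : L // P l = 1} : ℂ) =
        (∑ ψ : AddChar (Additive A) ℂ, ∑ l : L, ψ (Additive.ofMul (P l))) / Nat.card A := by
      rw [← hdouble]; field_simp
    rw [h4, Finset.sum_div, Finset.sum_div]
    refine Finset.sum_congr rfl fun ψ _ => ?_
    show _ = _ * ((∑ᶠ l : L, ψ (Additive.ofMul (P l))) / Nat.card L)
    rw [finsum_eq_sum_of_fintype]
    field_simp

end Pool.Agent.X329.Inv
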