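import Mathlib
import Pool.Agent.Y392.Neu.Neumann

/-! Finite groups with many involutions have a large normal subgroup with a small central
commutator subgroup. -/

set_option autoImplicit false

namespace Pool.Agent.X329.Inv

open Subgroup
open scoped Nat

theorem comm_pairs (G : Type*) [Group G] [Finite G] :
    Nat.card {x : G // x * x = 1} ^ 2 ≤ Nat.card {p : G × G // p.1 * p.2 = p.2 * p.1} := by
  classical
  let x0 : G → G := fun z => if h : ∃ x : G, x * x = 1 ∧ x * z * x = z⁻¹ then h.choose else 1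
  have hx0 : ∀ x y : G, x * x = 1 → y * y = 1 →
      (x0 (x * y) * x0 (x * y) = 1 ∧ x0 (x * y) * (x * y) * x0 (x * y) = (x * y)⁻¹) := by
    intro x y hx hy
    have h : ∃ x' : G, x' * x' = 1 ∧ x' * (x * y) * x' = (x * y)⁻¹ := by
      refine ⟨x, hx, ?_⟩
      have hx' : x⁻¹ = x := inv_eq_of_mul_eq_one_left hx
      have hy' : y⁻¹ = y := inv_eq_of_mul_eq_one_left hy
      rw [mul_inv_rev, hx', hy', ← mul_assoc, hx, one_mul]
    have h1 : x0 (x * y) = h.choose := dif_pos h
    rw [h1]
    exact h.choose_spec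
  let f : {x : G // x * x = 1} × {x : G // x * x = 1} →
      {p : G × G // p.1 * p.2 = p.2 * p.1} := fun p =>
    ⟨(p.1.1 * p.2.1, x0 (p.1.1 * p.2.1) * p.1.1), by
      obtain ⟨⟨x, hx⟩, ⟨y, hy⟩⟩ := p
      obtain ⟨h1, h2⟩ := hx0 x y hx hy
      show x * y * (x0 (x * y) * x) = x0 (x * y) * x * (x * y)
      set w := x0 (x * y) with hw
      have hw' : w⁻¹ = w := inv_eq_of_mul_eq_one_left h1
      have hy' : y⁻¹ = y := inv_eq_of_mul_eq_one_left hy
      have hx' : x⁻¹ = x := inv_eq_of_mul_eq_one_left hx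
      have h3 : (x * y) * w = w * (x * y)⁻¹ := by
        rw [← h2]
        rw [← mul_assoc, ← mul_assoc, h1, one_mul]
      rw [← mul_assoc, h3, mul_inv_rev, hx', hy', mul_assoc w x, mul_assoc w, ← mul_assoc x x, hx,
        one_mul, mul_assoc y, hx, mul_one]⟩
  have hf : Function.Injective f := by
    rintro ⟨⟨x, hx⟩, ⟨y, hy⟩⟩ ⟨⟨x', hx'⟩, ⟨y', hy'⟩⟩ h
    have h1 := congrArg Subtype.val h
    have h2 : x * y = x' * y' := congrArg Prod.fst h1
    have h3 : x0 (x * y) * x = x0 (x' * y') * x' := congrArg Prod.snd h1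
    rw [h2] at h3
    have h4 : x = x' := mul_left_cancel h3
    subst h4
    have h5 : y = y' := mul_left_cancel h2
    subst h5
    rfl
  have h := Nat.card_le_card_of_injective f hf
  rwa [Nat.card_prod, ← sq] at h

theorem index_normalCore_le (G : Type*) [Group G] [Finite G] (H : Subgroup G) :
    H.normalCore.index ≤ (H.index)! := by
  rw [normalCore_eq_ker, index_ker]
  have h1 : Nat.card (MulAction.toPermHom G (G ⧸ H)).range ≤ Nat.card (Equiv.Perm (G ⧸ H)) :=
    Subgroup.card_le_card_group _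
  refine h1.trans ?_
  rw [Nat.card_perm]
  rfl

theorem index_centralizer_le (G : Type*) [Group G] [Finite G] (D : Subgroup G) [D.Normal] :
    (centralizer (D : Set G)).index ≤ Nat.card D ^ Nat.card D := by
  classical
  have := Fintype.ofFinite D
  have h1 : (⨅ d : D, centralizer ({(d : G)} : Set G)) ≤ centralizer (D : Set G) := by
    intro g hg
    rw [mem_centralizer_iff]
    intro d hd
    have h2 := (Subgroup.mem_iInf.1 hg) ⟨d, hd⟩
    exact (Pool.Agent.Y392.Neu.mem_centralizer_single.1 h2).symm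
  have h2 : (centralizer (D : Set G)).index ≤
      (⨅ d : D, centralizer ({(d : G)} : Set G)).index :=
    Nat.le_of_dvd (Nat.pos_of_ne_zero FiniteIndex.index_ne_zero) (index_dvd_of_le h1)
  refine h2.trans ((index_iInf_le _).trans ?_)
  calc ∏ d : D, (centralizer ({(d : G)} : Set G)).index ≤ ∏ _d : D, Nat.card D := by
        refine Finset.prod_le_prod (fun _ _ => Nat.zero_le _) fun d _ => ?_
        rw [← Pool.Agent.Y392.Neu.card_cl]
        refine Nat.card_mono (Set.toFinite (D : Set G)) ?_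
        rintro _ ⟨g, rfl⟩
        exact Subgroup.Normal.conj_mem inferInstance d.1 d.2 g
    _ = Nat.card D ^ Nat.card D := by
        rw [Finset.prod_const, Finset.card_univ, ← Nat.card_eq_fintype_card]

theorem structure_thm (δ : ℝ) (hδ : 0 < δ) : ∃ Q : ℕ, 1 ≤ Q ∧ ∀ (G : Type) [Group G] [Finite G],
    δ * Nat.card G ≤ Nat.card {x : G // x * x = 1} →
    ∃ M : Subgroup G, M.Normal ∧ M.index ≤ Q ∧ Nat.card (⁅M, M⁆ : Subgroup G) ≤ Q ∧
      ∀ z ∈ ⁅M, M⁆, ∀ m ∈ M, z * m = m * z := by
  obtain ⟨K, s, hKs⟩ := Pool.Agent.Y392.Neu.neumann (δ ^ 2) (by positivity)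
  refine ⟨(K)! * (s ^ s + 1) + s, ?_, fun G _ _ hG => ?_⟩
  · have := Nat.factorial_pos K
    nlinarith [Nat.zero_le (s ^ s)]
  have hG2 : δ ^ 2 * (Nat.card G : ℝ) ^ 2 ≤
      Nat.card {p : G × G // p.1 * p.2 = p.2 * p.1} := by
    have h1 : (Nat.card {x : G // x * x = 1} : ℝ) ^ 2 ≤
        Nat.card {p : G × G // p.1 * p.2 = p.2 * p.1} := by exact_mod_cast comm_pairs G
    refine le_trans ?_ h1
    rw [← mul_pow]
    exact pow_le_pow_left₀ (by positivity) hG 2
  obtain ⟨H, hH1, hH2⟩ := hKs G hG2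
  set N := H.normalCore with hN
  have hNH : N ≤ H := normalCore_le H
  have hNn : N.Normal := normalCore_normal H
  have hNi : N.index ≤ (K)! := (index_normalCore_le G H).trans (Nat.factorial_le hH1)
  set D : Subgroup G := ⁅N, N⁆ with hD
  have hDn : D.Normal := commutator_normal N N
  have hDH : D ≤ ⁅H, H⁆ := commutator_mono hNH hNH
  have hDc : Nat.card D ≤ s := by
    have h1 : Nat.card (⁅H, H⁆ : Subgroup G) = Nat.card (_root_.commutator H) := by
      rw [← map_subtype_commutator H]
      exact Nat.card_congr ((_root_.commutator H).equivMapOfInjective H.subtype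
        (Subtype.val_injective)).symm.toEquiv
    exact (Nat.card_mono (Set.toFinite _) hDH).trans (h1.le.trans hH2)
  have hCn : (centralizer (D : Set G)).Normal := normal_centralizer
  have hCi : (centralizer (D : Set G)).index ≤ s ^ s + 1 := by
    refine (index_centralizer_le G D).trans ?_
    rcases Nat.eq_zero_or_pos s with h | h
    · exact absurd hDc (by rw [h]; exact not_le.2 Nat.card_pos)
    · exact ((Nat.pow_le_pow_left hDc _).trans (Nat.pow_le_pow_right h hDc)).trans
        (Nat.le_succ _)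
  have hMN : ⁅N ⊓ centralizer (D : Set G), N ⊓ centralizer (D : Set G)⁆ ≤ D :=
    commutator_mono inf_le_left inf_le_left
  refine ⟨N ⊓ centralizer (D : Set G), inferInstance, ?_, ?_, ?_⟩
  · refine index_inf_le.trans ((Nat.mul_le_mul hNi hCi).trans (Nat.le_add_right _ _))
  · exact ((Nat.card_mono (Set.toFinite _) hMN).trans hDc).trans (Nat.le_add_left _ _)
  · intro z hz m hm
    exact (mem_centralizer_iff.1 hm.2) z (hMN hz)

end Pool.Agent.X329.Inv
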