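import Mathlib
import Pool.Agent.X329.Inv.Grp
import Pool.Agent.X329.Inv.Struct

/-! The closure of the set of the proportions of involutions in finite groups is countable. -/

set_option autoImplicit false

namespace Pool.Agent.X329.Inv

open Subgroup
open scoped Nat Pointwise

theorem cmul {s t : Set ℂ} (hs : s.Countable) (ht : t.Countable) : (s * t).Countable :=
  hs.image2 ht _

theorem cadd {s t : Set ℂ} (hs : s.Countable) (ht : t.Countable) : (s + t).Countable :=
  hs.image2 ht _

/-- the terms -/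
def Es (Q : ℕ) : Set ℂ :=
  ((fun i : ℕ => (1 : ℂ) / i) '' (Finset.range (Q * Q + 1) : Set ℕ)) *
    (insert 0 (Set.range fun k : ℕ => (1 : ℂ) / (k + 1)) * E (Q)!)

theorem isCompact_inv : IsCompact (insert (0 : ℂ) (Set.range fun k : ℕ => (1 : ℂ) / (k + 1))) := by
  apply Filter.Tendsto.isCompact_insert_range
  have h := tendsto_one_div_add_atTop_nhds_zero_nat (𝕜 := ℂ)
  exact h

theorem isCompact_Es (Q : ℕ) : IsCompact (Es Q) :=
  (((Finset.finite_toSet _).image _).isCompact).mul
    (isCompact_inv.mul (isCompact_E _ (Nat.factorial_pos Q)))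

theorem countable_Es (Q : ℕ) : (Es Q).Countable :=
  cmul (((Finset.finite_toSet _).image _).countable)
    (cmul ((Set.countable_range _).insert _) (countable_E _ (Nat.factorial_pos Q)))

theorem mem_Es {Q i k : ℕ} {z : ℂ} (hi : i ≤ Q * Q) (hk : 1 ≤ k) (hz : z ∈ E (Q)!) :
    (1 : ℂ) / i * ((1 : ℂ) / k * z) ∈ Es Q := by
  refine Set.mul_mem_mul ⟨i, by simpa [Nat.lt_succ_iff] using hi, rfl⟩
    (Set.mul_mem_mul (Or.inr ⟨k - 1, ?_⟩) hz)
  obtain ⟨k, rfl⟩ : ∃ k', k = k' + 1 := ⟨k - 1, by omega⟩
  simp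

theorem zero_mem_Es (Q : ℕ) : (0 : ℂ) ∈ Es Q := by
  have h := mem_Es (Q := Q) (i := 0) (k := 1) (Nat.zero_le _) le_rfl (zero_mem_E (Q)!)
  simpa using h

/-- sums of `n` terms -/
def Ss (Q : ℕ) : ℕ → Set ℂ
  | 0 => {0}
  | n + 1 => Es Q + Ss Q n

theorem isCompact_Ss (Q n : ℕ) : IsCompact (Ss Q n) := by
  induction n with
  | zero => exact isCompact_singleton
  | succ n ih => exact (isCompact_Es Q).add ih

theorem countable_Ss (Q n : ℕ) : (Ss Q n).Countable := by
  induction n with
  | zero => exact Set.countable_singleton _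
  | succ n ih => exact cadd (countable_Es Q) ih

theorem Ss_mono (Q : ℕ) {m n : ℕ} (h : m ≤ n) : Ss Q m ⊆ Ss Q n := by
  induction h with
  | refl => exact subset_rfl
  | step _ ih =>
    intro x hx
    exact ⟨0, zero_mem_Es Q, x, ih hx, zero_add x⟩

theorem sum_mem_Ss {ι : Type*} (Q : ℕ) (t : Finset ι) (f : ι → ℂ) (hf : ∀ i ∈ t, f i ∈ Es Q) :
    ∑ i ∈ t, f i ∈ Ss Q t.card := by
  classical
  induction t using Finset.induction_on with
  | empty => simp [Ss]
  | insert a t ha ih =>
    rw [Finset.sum_insert ha, Finset.card_insert_of_notMem ha]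
    exact ⟨f a, hf a (Finset.mem_insert_self _ _), _,
      ih fun i hi => hf i (Finset.mem_insert_of_mem hi), rfl⟩

/-- The proportion of the solutions of `x ^ 2 = 1`. -/
theorem prop_mem {G : Type} [Group G] [Finite G] (Q : ℕ) (M : Subgroup G) [hMn : M.Normal]
    (hMi : M.index ≤ Q) (hMc : Nat.card (⁅M, M⁆ : Subgroup G) ≤ Q)
    (hcen : ∀ z ∈ ⁅M, M⁆, ∀ m ∈ M, z * m = m * z) :
    (Nat.card {x : G // x * x = 1} : ℂ) / Nat.card G ∈ Ss Q (Q * Q) := by
  classical
  have := Fintype.ofFinite G
  have hle : ⁅M, M⁆ ≤ M := commutator_le_left M M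
  let hA : CommGroup (⁅M, M⁆ : Subgroup G) :=
    { (inferInstance : Group (⁅M, M⁆ : Subgroup G)) with
      mul_comm := fun a b => Subtype.ext (hcen a a.2 b (hle b.2)) }
  let κ : (⁅M, M⁆ : Subgroup G) →* M := Subgroup.inclusion hle
  have hκ : Function.Injective κ := Subgroup.inclusion_injective hle
  have hcen' : ∀ (a : (⁅M, M⁆ : Subgroup G)) (m : M), κ a * m = m * κ a := fun a m =>
    Subtype.ext (hcen a a.2 m m.2)
  have hcomm : ∀ x y : M, ∃ a, κ a = x⁻¹ * y⁻¹ * x * y := by
    intro x y
    refine ⟨⟨(x : G)⁻¹ * (y : G)⁻¹ * x * y, ?_⟩, ?_⟩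
    · have h := commutator_mem_commutator (H₁ := M) (H₂ := M) (M.inv_mem x.2) (M.inv_mem y.2)
      rw [commutatorElement_def, inv_inv, inv_inv] at h
      exact h
    · exact Subtype.ext rfl
  set a := Nat.card (⁅M, M⁆ : Subgroup G) with ha
  have ha1 : 1 ≤ a := Nat.card_pos
  have hadvd : a ∣ (Q)! := Nat.dvd_factorial ha1 hMc
  -- each coset
  have hcoset : ∀ c : G ⧸ M, ∃ (k : ℕ) (z : AddChar (Additive (⁅M, M⁆ : Subgroup G)) ℂ → ℂ),
      1 ≤ k ∧ (∀ ψ, z ψ ∈ E (Q)!) ∧
      (Nat.card {x : G // (x : G ⧸ M) = c ∧ x * x = 1} : ℂ) / Nat.card M =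
        ∑ ψ, ((1 : ℂ) / a) * ((1 : ℂ) / k) * z ψ := by
    intro c
    by_cases hex : ∃ g : G, (g : G ⧸ M) = c ∧ g * g = 1
    · obtain ⟨g, hgc, hg⟩ := hex
      obtain ⟨k, z, hk, hz, hsum⟩ := class2 κ hκ hcen' hcomm
        (MulAut.conjNormal g : MulAut M).toMonoidHom (Q)! (Nat.factorial_pos Q) hadvd
      refine ⟨k, z, hk, hz, ?_⟩
      rw [← hsum]
      congr 2
      have hg' : g⁻¹ = g := inv_eq_of_mul_eq_one_left hg
      refine Nat.card_congr
        { toFun := fun x => ⟨⟨g * x.1, ?_⟩, ?_⟩
          invFun := fun m => ⟨g * m.1, ?_, ?_⟩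
          left_inv := ?_
          right_inv := ?_ }
      · have h1 : (g : G ⧸ M) = (x.1 : G ⧸ M) := by rw [hgc, x.2.1]
        have h2 := QuotientGroup.eq.1 h1
        rwa [hg'] at h2
      · apply Subtype.ext
        show g * (g * x.1) * g⁻¹ * (g * x.1) = 1
        have h3 := x.2.2
        calc g * (g * x.1) * g⁻¹ * (g * x.1) = (g * g) * (x.1 * x.1) := by group
          _ = 1 := by rw [hg, h3, one_mul]
      · rw [← hgc]
        refine (QuotientGroup.eq.2 ?_).symm
        rw [← mul_assoc, inv_mul_cancel, one_mul]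
        exact m.1.2
      · have h3 := congrArg Subtype.val m.2
        have h4 : g * (m.1 : G) * g⁻¹ * m.1 = 1 := h3
        rw [hg'] at h4
        rw [← h4]; group
      · intro x
        apply Subtype.ext
        show g * (g * x.1) = x.1
        rw [← mul_assoc, hg, one_mul]
      · intro m
        apply Subtype.ext
        apply Subtype.ext
        show g * (g * (m.1 : G)) = m.1
        rw [← mul_assoc, hg, one_mul]
    · refine ⟨1, fun _ => 0, le_rfl, fun _ => zero_mem_E _, ?_⟩
      have : IsEmpty {x : G // (x : G ⧸ M) = c ∧ x * x = 1} := ⟨fun x => hex ⟨x.1, x.2⟩⟩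
      simp
  choose k z hk hz hsum using hcoset
  have hsplit : Nat.card {x : G // x * x = 1} =
      ∑ c : G ⧸ M, Nat.card {x : G // (x : G ⧸ M) = c ∧ x * x = 1} := by
    have e : {x : G // x * x = 1} ≃ Σ c : G ⧸ M, {x : G // (x : G ⧸ M) = c ∧ x * x = 1} :=
      { toFun := fun x => ⟨(x.1 : G ⧸ M), ⟨x.1, rfl, x.2⟩⟩
        invFun := fun y => ⟨y.2.1, y.2.2.2⟩
        left_inv := fun x => rfl
        right_inv := by
          rintro ⟨c, x, rfl, hx⟩
          rfl }
    rw [Nat.card_congr e, Nat.card_sigma]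
  have hM0 : (Nat.card M : ℂ) ≠ 0 := by exact_mod_cast Nat.card_pos.ne'
  have hi0 : (M.index : ℂ) ≠ 0 := by exact_mod_cast FiniteIndex.index_ne_zero
  have hGc : (Nat.card G : ℂ) = M.index * Nat.card M := by exact_mod_cast M.index_mul_card.symm
  have hfinal : (Nat.card {x : G // x * x = 1} : ℂ) / Nat.card G =
      ∑ p ∈ (Finset.univ : Finset ((G ⧸ M) × AddChar (Additive (⁅M, M⁆ : Subgroup G)) ℂ)),
        (1 : ℂ) / (M.index * a : ℕ) * ((1 : ℂ) / k p.1 * z p.1 p.2) := by
    rw [← Finset.univ_product_univ, Finset.sum_product, hsplit, hGc]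
    push_cast
    rw [Finset.sum_div]
    refine Finset.sum_congr rfl fun c _ => ?_
    have h1 := hsum c
    have h2 : (Nat.card {x : G // (x : G ⧸ M) = c ∧ x * x = 1} : ℂ) / (M.index * Nat.card M) =
        (1 / M.index) * ((Nat.card {x : G // (x : G ⧸ M) = c ∧ x * x = 1} : ℂ) / Nat.card M) := by
      field_simp
    rw [h2, h1, Finset.mul_sum]
    refine Finset.sum_congr rfl fun ψ _ => ?_
    have ha0 : (a : ℂ) ≠ 0 := by exact_mod_cast (by omega : a ≠ 0)
    have hk0 : (k c : ℂ) ≠ 0 := by exact_mod_cast (by have := hk c; omega : k c ≠ 0)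
    field_simp
  rw [hfinal]
  have hcard : (Finset.univ : Finset ((G ⧸ M) ×
      AddChar (Additive (⁅M, M⁆ : Subgroup G)) ℂ)).card ≤ Q * Q := by
    rw [Finset.card_univ, Fintype.card_prod]
    refine Nat.mul_le_mul ?_ ?_
    · rw [← Nat.card_eq_fintype_card]
      exact hMi
    · have hF := Fintype.ofFinite (⁅M, M⁆ : Subgroup G)
      rw [AddChar.card_eq, ← Nat.card_eq_fintype_card]
      exact hMc
  refine Ss_mono Q hcard (sum_mem_Ss Q _ _ fun p _ => mem_Es ?_ (hk p.1) (hz p.1 p.2))
  exact Nat.mul_le_mul hMi hMc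

/-- the proportion of the involutions of a finite group -/
noncomputable def invProp (G : Type) [Group G] : ℝ :=
  (Nat.card {x : G // orderOf x = 2} : ℝ) / Nat.card G

/-- the set of all proportions of involutions -/
def propSet : Set ℝ := {t | ∃ (G : Type) (_ : Group G) (_ : Finite G), t = invProp G}

theorem card_sq (G : Type) [Group G] [Finite G] :
    Nat.card {x : G // x * x = 1} = Nat.card {x : G // orderOf x = 2} + 1 := by
  classical
  have := Fintype.ofFinite G
  have e : {x : G // x * x = 1} ≃ Option {x : G // orderOf x = 2} :=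
    { toFun := fun x => if h : orderOf x.1 = 2 then some ⟨x.1, h⟩ else none
      invFun := fun y => match y with
        | none => ⟨1, one_mul 1⟩
        | some x => ⟨x.1, by
            have h := pow_orderOf_eq_one x.1
            rw [x.2, sq] at h
            exact h⟩
      left_inv := by
        rintro ⟨x, hx⟩
        by_cases h : orderOf x = 2
        · simp [h]
        · have h1 : orderOf x ∣ 2 := orderOf_dvd_of_pow_eq_one (by rw [sq, hx])
          have h2 : orderOf x = 1 := by
            rcases (Nat.dvd_prime Nat.prime_two).1 h1 with h' | h'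
            · exact h'
            · exact absurd h' h
          have h3 : x = 1 := orderOf_eq_one_iff.1 h2
          subst h3
          simp
      right_inv := by
        rintro (_ | ⟨x, hx⟩)
        · simp
        · simp [hx] }
  rw [Nat.card_congr e, Finite.card_option]

/-- a compact countable set containing the proportions larger than `δ` -/
theorem exists_compact (δ : ℝ) (hδ : 0 < δ) : ∃ W : Set ℝ, IsCompact W ∧ W.Countable ∧
    ∀ t ∈ propSet, δ ≤ t → t ∈ W := by
  obtain ⟨Q, hQ, hstr⟩ := structure_thm δ hδ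
  refine ⟨Complex.re '' (Ss Q (Q * Q) + (fun z : ℂ => -z) ''
    (insert 0 (Set.range fun k : ℕ => (1 : ℂ) / (k + 1)))), ?_, ?_, ?_⟩
  · exact ((isCompact_Ss Q _).add (isCompact_inv.image continuous_neg)).image Complex.continuous_re
  · exact (cadd (countable_Ss Q _)
      (((Set.countable_range _).insert _).image _)).image _
  · rintro t ⟨G, _, _, rfl⟩ ht
    have hG0 : (0 : ℝ) < Nat.card G := by exact_mod_cast Nat.card_pos
    have h1 : δ * Nat.card G ≤ Nat.card {x : G // x * x = 1} := by
      rw [card_sq]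
      push_cast
      have h2 : δ * Nat.card G ≤ invProp G * Nat.card G := mul_le_mul_of_nonneg_right ht hG0.le
      have h3 : invProp G * Nat.card G = Nat.card {x : G // orderOf x = 2} := by
        unfold invProp; field_simp
      linarith
    obtain ⟨M, hMn, hMi, hMc, hcen⟩ := hstr G h1
    have h4 := prop_mem (hMn := hMn) Q M hMi hMc hcen
    refine ⟨(Nat.card {x : G // x * x = 1} : ℂ) / Nat.card G + -((1 : ℂ) / Nat.card G),
      ⟨_, h4, _, ⟨(1 : ℂ) / Nat.card G, Or.inr ⟨Nat.card G - 1, ?_⟩, rfl⟩, rfl⟩, ?_⟩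
    · have h5 : Nat.card G - 1 + 1 = Nat.card G := Nat.sub_add_cancel Nat.card_pos
      have h6 : ((Nat.card G - 1 : ℕ) : ℂ) + 1 = Nat.card G := by exact_mod_cast h5
      show (1 : ℂ) / (((Nat.card G - 1 : ℕ) : ℂ) + 1) = 1 / Nat.card G
      rw [h6]
    · have h7 : (Nat.card {x : G // x * x = 1} : ℂ) / Nat.card G + -((1 : ℂ) / Nat.card G) =
          ((invProp G : ℝ) : ℂ) := by
        rw [card_sq]
        unfold invProp
        push_cast
        ring
      rw [h7, Complex.ofReal_re]

/-- The closure of the set of the proportions of involutions is countable. -/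
theorem closure_countable : (closure propSet).Countable := by
  choose W hWc hWn hW using fun n : ℕ => exists_compact (1 / ((n : ℝ) + 1)) (by positivity)
  have hsub : closure propSet ⊆ {0} ∪ ⋃ n, W n := by
    intro x hx
    have hx0 : 0 ≤ x := by
      have h1 : closure propSet ⊆ Set.Ici 0 := by
        refine closure_minimal ?_ isClosed_Ici
        rintro t ⟨G, _, _, rfl⟩
        show 0 ≤ invProp G
        unfold invProp
        positivity
      exact h1 hx
    rcases hx0.eq_or_lt with h | h
    · exact Or.inl h.symm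
    · right
      obtain ⟨n, hn⟩ := exists_nat_one_div_lt h
      rw [Set.mem_iUnion]
      refine ⟨n, ?_⟩
      have h1 : x ∈ closure (propSet ∩ Set.Ioi (1 / ((n : ℝ) + 1))) := by
        rw [Set.inter_comm]
        exact isOpen_Ioi.inter_closure ⟨hn, hx⟩
      have h2 : closure (propSet ∩ Set.Ioi (1 / ((n : ℝ) + 1))) ⊆ W n :=
        closure_minimal (fun t ht => hW n t ht.1 (le_of_lt ht.2)) (hWc n).isClosed
      exact h2 h1
  exact ((Set.countable_singleton _).union (Set.countable_iUnion hWn)).mono hsub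

/-- Every interval contains an interval without proportions. -/
theorem gap (a b : ℝ) (hab : a < b) : ∃ t ∈ Set.Icc a b, ∃ ε > 0, ∀ (G : Type) [Group G] [Finite G],
    ε ≤ |invProp G - t| := by
  by_contra hcon
  push Not at hcon
  have h1 : Set.Icc a b ⊆ closure propSet := by
    intro t ht
    rw [Metric.mem_closure_iff]
    intro ε hε
    obtain ⟨G, i1, i2, hG⟩ := hcon t ht ε hε
    refine ⟨invProp G, ⟨G, i1, i2, rfl⟩, ?_⟩
    rw [dist_comm, Real.dist_eq]
    exact hG
  have h2 := closure_countable.mono h1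
  have h3 := Cardinal.mk_Icc_real hab
  have h4 := (Cardinal.le_aleph0_iff_set_countable).2 h2
  rw [h3] at h4
  exact absurd h4 (not_le.2 Cardinal.aleph0_lt_continuum)

end Pool.Agent.X329.Inv
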